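import Pool.Agent.Helper69.EL.Stm

/-! Part NU: the choice of the orders. -/

set_option autoImplicit false

namespace Pool.Agent.Helper69.EL

open Filter Topology

/-- the orders: `ν` increases by one as soon as the threshold of the next order is passed -/
def nuf (τ : ℕ → ℕ) (κ : ℕ) : ℕ → ℕ
  | 0 => κ
  | i + 1 => if τ (nuf τ κ i + 1) ≤ i + 1 then nuf τ κ i + 1 else nuf τ κ i

theorem nuf_succ (τ : ℕ → ℕ) (κ i : ℕ) : nuf τ κ (i + 1) =
    if τ (nuf τ κ i + 1) ≤ i + 1 then nuf τ κ i + 1 else nuf τ κ i := rfl

theorem nu : S_NU := by
  intro τ κ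
  have mono : Monotone (nuf τ κ) := by
    apply monotone_nat_of_le_succ
    intro i
    rw [nuf_succ]
    split_ifs <;> omega
  have inv : ∀ i, nuf τ κ i = κ ∨ τ (nuf τ κ i) ≤ i := by
    intro i
    induction i with
    | zero => left; rfl
    | succ i ih =>
      rw [nuf_succ]
      split_ifs with h
      · right; exact h
      · rcases ih with ih | ih
        · left; exact ih
        · right; omega
  refine ⟨nuf τ κ, fun i => ?_, ?_, τ κ, fun i hi => ⟨?_, ?_⟩⟩
  · exact mono (Nat.zero_le i)
  · apply tendsto_atTop_atTop_of_monotone mono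
    intro b
    induction b with
    | zero => exact ⟨0, Nat.zero_le _⟩
    | succ b ih =>
      obtain ⟨i, hi⟩ := ih
      rcases Nat.lt_or_ge b (nuf τ κ i) with h | h
      · exact ⟨i, h⟩
      · by_contra hcon
        push Not at hcon
        have hc : ∀ j, i ≤ j → nuf τ κ j = b := by
          intro j hj
          have h1 := mono hj
          have h2 := hcon j
          omega
        have h3 := hc (max i (τ (b + 1))) (le_max_left _ _)
        have h4 := hc (max i (τ (b + 1)) + 1) (by omega)
        rw [nuf_succ, h3, if_pos (by have := le_max_right i (τ (b + 1)); omega)] at h4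
        omega
  · rw [nuf_succ]
    split_ifs
    · right; rfl
    · left; rfl
  · rcases inv i with h | h
    · rw [h]; exact hi
    · exact h

end Pool.Agent.Helper69.EL
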