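import Pool.Agent.Helper69.EL.Stm
import Pool.Agent.Helper69.EK.Num
import Pool.Graph.R_pool_sql_team_seeded_1e53cb71.Helper6K9.EH.StepA

/-! Part SWI: the change of the order of averaging at the end of a block. -/

set_option autoImplicit false

namespace Pool.Agent.Helper69.EL

open Set Filter Topology Pool.Agent.Helper6K9.ES
open Pool.Agent.Helper6K9.EH (Prof Fam eX eY dst pt Tr mkFam Pv Shf S_PROF S_FLOW)
open Pool.Agent.Helper69.EK (MM tau ss ee dd qq hf eta Shp Smk NearId Sh VS Rg S_SHA S_HJ S_INV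
  S_AVA S_AVL)
open Pool.Agent.Helper69.EK.NumL (xx EE yy ev_y mono3 eej three EE_ge sq_pos sq_le sq_sq)
open scoped ContDiff

namespace SWIL

theorem s_bd {l b K κ dxi dze dX dJ dw dY dv dq d0 d1 : ℝ} (hl : 0 < l)
    (hκ : κ ≤ 1 / 4) (h1 : |dJ - dv| ≤ κ * (|dv| + |dq| + |d0| + |d1|))
    (h2 : |dw - dq| ≤ κ * (|dv| + |dq| + |d0| + |d1|)) (hp1 : d1 = dY) (hp0 : d0 = dX + b * dY)
    (hxi : dxi = dw + l * dY) (hze : dze = dw - l * dY)
    (hc : |dze| + l / 4 * |dX| + |dJ| ≤ K * |dxi|) :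
    |dv| + |dq| + |d0| + |d1| ≤ (3 + 8 / l + (1 + |b|) / l) * (1 + K) * |dxi| := by
  have u0 : 0 ≤ |dxi| := abs_nonneg _
  have z0 : 0 ≤ |dze| := abs_nonneg _
  have x0 : 0 ≤ |dX| := abs_nonneg _
  have j0 : 0 ≤ |dJ| := abs_nonneg _
  have b0 : 0 ≤ |b| := abs_nonneg _
  have s0 : 0 ≤ |dv| + |dq| + |d0| + |d1| := by positivity
  have x1 : 0 ≤ l / 4 * |dX| := by positivity
  have a1 : |dv| ≤ |dJ| + |dJ - dv| := by
    have : dv = dJ - (dJ - dv) := by ring
    calc |dv| = |dJ - (dJ - dv)| := by rw [← this]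
      _ ≤ |dJ| + |dJ - dv| := abs_sub _ _
  have a2 : |dq| ≤ |dw| + |dw - dq| := by
    have : dq = dw - (dw - dq) := by ring
    calc |dq| = |dw - (dw - dq)| := by rw [← this]
      _ ≤ |dw| + |dw - dq| := abs_sub _ _
  have a3 : |d0| ≤ |dX| + |b| * |dY| := by
    rw [hp0, ← abs_mul]
    exact abs_add_le _ _
  have a5 : 2 * |dw| ≤ |dxi| + |dze| := by
    have : 2 * dw = dxi + dze := by rw [hxi, hze]; ring
    calc 2 * |dw| = |2 * dw| := by rw [abs_mul, abs_of_pos (by norm_num : (0 : ℝ) < 2)]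
      _ = |dxi + dze| := by rw [this]
      _ ≤ _ := abs_add_le _ _
  have a6 : 2 * l * |dY| ≤ |dxi| + |dze| := by
    have : 2 * l * dY = dxi - dze := by rw [hxi, hze]; ring
    calc 2 * l * |dY| = |2 * l * dY| := by rw [abs_mul, abs_of_pos (by positivity : 0 < 2 * l)]
      _ = |dxi - dze| := by rw [this]
      _ ≤ _ := abs_sub _ _
  have a7 : |dze| ≤ K * |dxi| := by linarith
  have a8 : |dJ| ≤ K * |dxi| := by linarith
  have a9 : |dX| ≤ 4 * K / l * |dxi| := by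
    rw [div_mul_eq_mul_div, le_div_iff₀ hl]
    linarith
  have a10 : |dY| ≤ (1 + K) / (2 * l) * |dxi| := by
    rw [div_mul_eq_mul_div, le_div_iff₀ (by positivity)]
    linarith
  have a11 : κ * (|dv| + |dq| + |d0| + |d1|) ≤ 1 / 4 * (|dv| + |dq| + |d0| + |d1|) :=
    mul_le_mul_of_nonneg_right hκ s0
  have a12 : |d1| = |dY| := by rw [hp1]
  have a13 : |dv| + |dq| + |d0| + |d1| ≤ 2 * (|dJ| + |dw| + |dX| + (1 + |b|) * |dY|) := by
    linarith
  have a14 : (1 + |b|) * |dY| ≤ (1 + |b|) * ((1 + K) / (2 * l) * |dxi|) :=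
    mul_le_mul_of_nonneg_left a10 (by positivity)
  have e1 : (3 + 8 / l + (1 + |b|) / l) * (1 + K) * |dxi| =
      2 * (K * |dxi| + (1 + K) / 2 * |dxi| + 4 * K / l * |dxi| +
        (1 + |b|) * ((1 + K) / (2 * l) * |dxi|)) + (2 * |dxi| + 8 / l * |dxi|) := by
    field_simp
    ring
  have e2 : 0 ≤ 8 / l * |dxi| := by positivity
  rw [e1]
  linarith

theorem cone {l K θ dxi dxi' dze dze' dX dJ dJ' : ℝ} (hK : 1 / 2 ≤ K)
    (hθ : θ * (1 + K) ≤ 1 / 4) (h1 : |dxi' - dxi| ≤ θ * |dxi|) (h2 : |dze' - dze| ≤ θ * |dxi|)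
    (h3 : |dJ' - dJ| ≤ θ * |dxi|) (hc : |dze| + l / 4 * |dX| + |dJ| ≤ K * |dxi|) :
    |dze'| + l / 4 * |dX| + |dJ'| ≤ 2 * K * |dxi'| := by
  have u0 : 0 ≤ |dxi| := abs_nonneg _
  have a1 : |dze'| ≤ |dze' - dze| + |dze| := by
    have : dze' = (dze' - dze) + dze := by ring
    calc |dze'| = |(dze' - dze) + dze| := by rw [← this]
      _ ≤ _ := abs_add_le _ _
  have a2 : |dJ'| ≤ |dJ' - dJ| + |dJ| := by
    have : dJ' = (dJ' - dJ) + dJ := by ring
    calc |dJ'| = |(dJ' - dJ) + dJ| := by rw [← this]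
      _ ≤ _ := abs_add_le _ _
  have a3 : |dxi| ≤ |dxi'| + |dxi' - dxi| := by
    have : dxi = dxi' - (dxi' - dxi) := by ring
    calc |dxi| = |dxi' - (dxi' - dxi)| := by rw [← this]
      _ ≤ _ := abs_sub _ _
  have a4 : (1 - θ) * |dxi| ≤ |dxi'| := by linarith
  have a5 : (K + 2 * θ) * |dxi| ≤ 2 * K * ((1 - θ) * |dxi|) := by
    have : (K + 2 * θ) ≤ 2 * K * (1 - θ) := by nlinarith
    calc (K + 2 * θ) * |dxi| ≤ (2 * K * (1 - θ)) * |dxi| := mul_le_mul_of_nonneg_right this u0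
      _ = _ := by ring
  have a6 : 2 * K * ((1 - θ) * |dxi|) ≤ 2 * K * |dxi'| :=
    mul_le_mul_of_nonneg_left a4 (by linarith)
  linarith

end SWIL

set_option maxHeartbeats 2000000 in
theorem swi : S_SWI := by
  intro st j₀ b r₀ K₀ C V C' V' Jf wf Jf' wf' hst hr₀ hr₀' hK₀ hC hV hC' hV' hn hn'
  obtain ⟨hn1, hn2, -⟩ := hn
  obtain ⟨hm1, hm2, hm3⟩ := hn'
  have hl := hst.hl
  set D : ℝ := C + C' with hD
  set C₂ : ℝ := 3 + 8 / st.l + (1 + |b|) / st.l with hC₂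
  have hC₂0 : 0 ≤ C₂ := by
    have := abs_nonneg b
    positivity
  have hD0 : 0 < D := by linarith
  obtain ⟨i₃, hi₃⟩ := eventually_atTop.1
    (ev_y (V + V' + 4 * D + 4 * D / r₀ + 16 * (D * C₂ * K₀ ^ 2) + K₀) one_pos)
  refine ⟨max 2 i₃, ?_⟩
  rintro e rfl i p₀ p₁ v q N a c T J hi ⟨cp₀, cp₁, cv, cq⟩ hout
  have hi2 : 2 ≤ i := (le_max_left _ _).trans hi
  have hA := hi₃ i ((le_max_right _ _).trans hi)
  -- the small quantities
  have y0 : 0 < EK.NumL.sq i := sq_pos i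
  have y1 : EK.NumL.sq i ≤ yy i := by simpa using mono3 i 0 0 1 (by norm_num) (by norm_num) le_rfl
  have y2 : EK.NumL.sq i ^ 2 ≤ yy i := by simpa using mono3 i 0 0 2 (by norm_num) (by norm_num) (by norm_num)
  have y3 : EE i ^ 2 * EK.NumL.sq i ^ 2 ≤ yy i := by
    simpa using mono3 i 0 2 2 (by norm_num) (by norm_num) (by norm_num)
  have y4 : EE i * EK.NumL.sq i ≤ yy i := by
    simpa using mono3 i 0 1 1 (by norm_num) (by norm_num) (by norm_num)
  have yp : 0 < yy i := lt_of_lt_of_le y0 y1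
  have t1 : 0 ≤ V * yy i := by positivity
  have t2 : 0 ≤ V' * yy i := by positivity
  have t3 : 0 ≤ 4 * D * yy i := by positivity
  have t4 : 0 ≤ 4 * D / r₀ * yy i := by positivity
  have t5 : 0 ≤ 16 * (D * C₂ * K₀ ^ 2) * yy i := by positivity
  have t6 : 0 ≤ K₀ * yy i := by positivity
  have A1 : V * yy i ≤ 1 := by linarith
  have A2 : V' * yy i ≤ 1 := by linarith
  have A3 : 4 * D * yy i ≤ 1 := by linarith
  have A4 : 4 * D / r₀ * yy i ≤ 1 := by linarith
  have A5 : 16 * (D * C₂ * K₀ ^ 2) * yy i ≤ 1 := by linarith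
  have A6 : K₀ * yy i ≤ 1 := by linarith
  have hP : (0 : ℝ) < 2 ^ i := by positivity
  have hsq : EK.NumL.sq i ^ 2 = 1 / 2 ^ i := sq_sq i
  have hP4 : (4 : ℝ) ≤ 2 ^ i := by
    calc (4 : ℝ) = 2 ^ 2 := by norm_num
      _ ≤ 2 ^ i := pow_le_pow_right₀ (by norm_num) hi2
  set W : ℝ := (2 : ℝ) ^ (i + 1) - 3 with hW
  have hPW : (2 : ℝ) ^ i ≤ W := by rw [hW, pow_succ]; linarith
  have hW0 : 0 < W := by linarith
  have hinv : 1 / W ≤ EK.NumL.sq i ^ 2 := by
    rw [hsq]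
    exact one_div_le_one_div_of_le hP hPW
  have B1 : V ≤ W := by
    have h1 : V * (1 / 2 ^ i) ≤ 1 := by
      rw [← hsq]
      exact (mul_le_mul_of_nonneg_left y2 (by linarith)).trans A1
    rw [mul_one_div, div_le_one hP] at h1
    linarith
  have B2 : V' ≤ W := by
    have h1 : V' * (1 / 2 ^ i) ≤ 1 := by
      rw [← hsq]
      exact (mul_le_mul_of_nonneg_left y2 (by linarith)).trans A2
    rw [mul_one_div, div_le_one hP] at h1
    linarith
  set η : ℝ := D / W with hη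
  have hη0 : 0 ≤ η := by positivity
  have hη1 : η ≤ D * EK.NumL.sq i ^ 2 := by
    rw [hη, div_eq_mul_one_div]
    exact mul_le_mul_of_nonneg_left hinv hD0.le
  have B3 : η ≤ 1 / 4 := by
    have := mul_le_mul_of_nonneg_left y2 hD0.le
    linarith
  have B4 : η ≤ r₀ / 4 := by
    have h1 := mul_le_mul_of_nonneg_left y2 hD0.le
    have h2 : 4 * D / r₀ * yy i = 4 * (D * yy i) / r₀ := by ring
    rw [h2, div_le_one hr₀] at A4
    linarith
  have B5 : η ≤ EK.NumL.sq i / 4 := by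
    have h1 : D * EK.NumL.sq i ^ 2 = (D * EK.NumL.sq i) * EK.NumL.sq i := by ring
    have h2 := mul_le_mul_of_nonneg_left y1 hD0.le
    have h3 : D * EK.NumL.sq i ≤ 1 / 4 := by linarith
    have h4 := mul_le_mul_of_nonneg_right h3 y0.le
    linarith
  -- the cone constants
  have hEE := EE_ge i
  have hee : ee (3 * i) = 1 / EE i := eej (three i)
  set K : ℝ := K₀ / (2 * ee (3 * i)) with hK
  have hKe : K = K₀ * EE i / 2 := by
    rw [hK, hee]
    field_simp
  have hKEE : 1 ≤ K₀ * EE i := one_le_mul_of_one_le_of_one_le hK₀ hEE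
  have hK1 : 1 / 2 ≤ K := by
    rw [hKe]
    linarith only [hKEE]
  have hK2 : 1 + K ≤ 2 * (K₀ * EE i) := by
    rw [hKe]
    linarith only [hKEE]
  have B6 : K * (2 * EK.NumL.sq i) ≤ 1 := by
    have h1 : K * (2 * EK.NumL.sq i) = K₀ * (EE i * EK.NumL.sq i) := by rw [hKe]; ring
    rw [h1]
    exact (mul_le_mul_of_nonneg_left y4 (by linarith)).trans A6
  set θ : ℝ := η * (C₂ * (1 + K)) with hθ
  have hθ0 : 0 ≤ θ := by positivity
  have B7 : θ * (1 + K) ≤ 1 / 4 := by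
    have h1 : θ * (1 + K) = η * (C₂ * (1 + K) ^ 2) := by rw [hθ]; ring
    have h2 : (1 + K) ^ 2 ≤ (2 * (K₀ * EE i)) ^ 2 := pow_le_pow_left₀ (by linarith) hK2 2
    have h3 : C₂ * (1 + K) ^ 2 ≤ C₂ * (2 * (K₀ * EE i)) ^ 2 := mul_le_mul_of_nonneg_left h2 hC₂0
    have h4 : η * (C₂ * (1 + K) ^ 2) ≤ (D * EK.NumL.sq i ^ 2) * (C₂ * (2 * (K₀ * EE i)) ^ 2) :=
      mul_le_mul hη1 h3 (by positivity) (by positivity)
    have h5 : (D * EK.NumL.sq i ^ 2) * (C₂ * (2 * (K₀ * EE i)) ^ 2) =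
        4 * (D * C₂ * K₀ ^ 2) * (EE i ^ 2 * EK.NumL.sq i ^ 2) := by ring
    have h6 : 4 * (D * C₂ * K₀ ^ 2) * (EE i ^ 2 * EK.NumL.sq i ^ 2) ≤ 4 * (D * C₂ * K₀ ^ 2) * yy i :=
      mul_le_mul_of_nonneg_left y3 (by positivity)
    rw [h1]
    linarith
  have hK3 : 2 * K ≤ K₀ / ee (3 * (i + 1)) := by
    rw [eej (three (i + 1)), hKe]
    have h1 : EE i ≤ EE (i + 1) := by
      unfold EE xx
      apply Real.exp_le_exp.2
      apply Real.sqrt_le_sqrt
      push_cast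
      linarith
    have h2 : K₀ / (1 / EE (i + 1)) = K₀ * EE (i + 1) := by field_simp
    rw [h2]
    have h3 := mul_le_mul_of_nonneg_left h1 (le_trans zero_le_one hK₀)
    linarith only [h3]
  -- the radii
  have hrr : rr i = EK.NumL.sq i := rfl
  have hr1 : rr (i + 1) ≤ 3 / 4 * EK.NumL.sq i := by
    unfold rr
    rw [show (3 / 4 * EK.NumL.sq i) = √((3 / 4 * EK.NumL.sq i) ^ 2) from (Real.sqrt_sq (by positivity)).symm]
    apply Real.sqrt_le_sqrt
    rw [mul_pow, hsq, pow_succ]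
    have : (1 : ℝ) / (2 ^ i * 2) = 1 / 2 * (1 / 2 ^ i) := by field_simp
    rw [this]
    have h0 : (0 : ℝ) ≤ 1 / 2 ^ i := by positivity
    have h9 : ((3 : ℝ) / 4) ^ 2 = 9 / 16 := by norm_num
    rw [h9]
    linarith only [h0]
  have hr2 : 0 ≤ rr (i + 1) := Real.sqrt_nonneg _
  obtain ⟨hbox, hja, hjm, hlo, hhi, hvel⟩ := hout
  obtain ⟨hac, hleft, hright, hbx, hbz, hcone⟩ := hbox
  -- the functions at the time `T`
  set J1 : ℝ → ℝ := fun s => Jf (v s T) (q s T) (pt (p₀ s T) (p₁ s T) T) with hJ1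
  set w1 : ℝ → ℝ := fun s => wf (v s T) (q s T) (pt (p₀ s T) (p₁ s T) T) with hw1
  set J2 : ℝ → ℝ := fun s => Jf' (v s T) (q s T) (pt (p₀ s T) (p₁ s T) T) with hJ2
  set w2 : ℝ → ℝ := fun s => wf' (v s T) (q s T) (pt (p₀ s T) (p₁ s T) T) with hw2
  set X1 : ℝ → ℝ := fun s => p₀ s T - b * (p₁ s T - N) with hX1
  set Y1 : ℝ → ℝ := fun s => p₁ s T - N with hY1
  set F := mkFam b Jf wf p₀ p₁ v q N with hF
  set F' := mkFam b Jf' wf' p₀ p₁ v q N with hF'
  have xi1 : ∀ s, xi e F s T = w1 s + e.l * Y1 s := fun s => rfl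
  have ze1 : ∀ s, ze e F s T = w1 s - e.l * Y1 s := fun s => rfl
  have xi2 : ∀ s, xi e F' s T = w2 s + e.l * Y1 s := fun s => rfl
  have ze2 : ∀ s, ze e F' s T = w2 s - e.l * Y1 s := fun s => rfl
  have FX : ∀ s, F.X s T = X1 s := fun s => rfl
  have FX' : ∀ s, F'.X s T = X1 s := fun s => rfl
  have FJ : ∀ s, F.J s T = J1 s := fun s => rfl
  have FJ' : ∀ s, F'.J s T = J2 s := fun s => rfl
  have hvq : ∀ s ∈ Icc a c, W ≤ v s T ∧ |q s T| ≤ 2 := fun s hs => hvel s hs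
  -- closeness
  have near : ∀ s ∈ Icc a c, |J2 s - J1 s| ≤ η ∧ |w2 s - w1 s| ≤ η := by
    intro s hs
    obtain ⟨h1, h2⟩ := hvq s hs
    obtain ⟨g1, g2⟩ := hn1 (v s T) (q s T) (pt (p₀ s T) (p₁ s T) T) (B1.trans h1) h2
    obtain ⟨g3, g4⟩ := hm1 (v s T) (q s T) (pt (p₀ s T) (p₁ s T) T) (B2.trans h1) h2
    have hv0 : 0 < v s T := hW0.trans_le h1
    have k1 : C / v s T ≤ C / W := div_le_div_of_nonneg_left (by linarith) hW0 h1
    have k2 : C' / v s T ≤ C' / W := div_le_div_of_nonneg_left (by linarith) hW0 h1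
    have k3 : C / W + C' / W = η := by rw [hη, hD, add_div]
    constructor
    · have e1 : J2 s - J1 s = (J2 s - v s T) - (J1 s - v s T) := by ring
      rw [e1]
      refine (abs_sub _ _).trans ?_
      have g1' : |J1 s - v s T| ≤ C / v s T := g1
      have g3' : |J2 s - v s T| ≤ C' / v s T := g3
      linarith
    · have e1 : w2 s - w1 s = (w2 s - q s T) - (w1 s - q s T) := by ring
      rw [e1]
      refine (abs_sub _ _).trans ?_
      have g2' : |w1 s - q s T| ≤ C / v s T := g2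
      have g4' : |w2 s - q s T| ≤ C' / v s T := g4
      linarith
  -- continuity
  have hcont : Continuous fun s : ℝ => (v s T, q s T, pt (p₀ s T) (p₁ s T) T) := by
    unfold pt
    refine cv.prodMk (cq.prodMk (Continuous.prodMk ?_ continuous_const))
    refine continuous_pi fun i => ?_
    fin_cases i
    · exact cp₀
    · exact cp₁
  have hc1 : ContinuousOn (fun s => (J2 s, w2 s)) (Icc a c) :=
    hm3.comp hcont.continuousOn fun s hs => ⟨B2.trans (hvq s hs).1, (hvq s hs).2⟩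
  have hcJ : ContinuousOn J2 (Icc a c) := continuous_fst.comp_continuousOn hc1
  have hcw : ContinuousOn w2 (Icc a c) := continuous_snd.comp_continuousOn hc1
  have hma : a ∈ Icc a c := ⟨le_rfl, hac⟩
  have hmc : c ∈ Icc a c := ⟨hac, le_rfl⟩
  rw [xi1, hrr] at hleft hright
  obtain ⟨a', c', h1, h2, h3, h4, h5, h6⟩ := Pool.Agent.Helper6K9.EH.StepL.cross
    (f := fun s => w2 s + e.l * Y1 s) (a := a) (b := c) (p := -rr (i + 1)) (q := rr (i + 1)) hac
    (hcw.add (continuous_const.mul (cp₁.sub continuous_const)).continuousOn) (by linarith) (by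
      have := abs_le.1 (near a hma).2
      show w2 a + e.l * Y1 a ≤ -rr (i + 1)
      linarith [this.2]) (by
      have := abs_le.1 (near c hmc).2
      show rr (i + 1) ≤ w2 c + e.l * Y1 c
      linarith [this.1])
  have hsub : Icc a' c' ⊆ Icc a c := Icc_subset_Icc h1 h3
  obtain ⟨s₀, hs₀, hmin⟩ := isCompact_Icc.exists_isMinOn ⟨a', ⟨le_rfl, h2⟩⟩ (hcJ.mono hsub)
  refine ⟨a', c', J2 s₀, h1, h3, ?_⟩
  constructor
  · refine ⟨h2, ?_, ?_, ?_, ?_, ?_⟩
    · rw [xi2]; exact h4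
    · rw [xi2]; exact h5
    · intro s hs
      rw [xi2, abs_le]
      exact h6 s hs
    · intro s hs
      have g1 := hbz s (hsub hs)
      rw [ze1] at g1
      rw [ze2]
      have g2 := (near s (hsub hs)).2
      have e1 : w2 s - e.l * Y1 s = (w2 s - w1 s) + (w1 s - e.l * Y1 s) := by ring
      rw [e1]
      refine (abs_add_le _ _).trans ?_
      linarith
    · intro s hs s' hs'
      have hs1 := hsub hs
      have hs1' := hsub hs'
      have g := hcone s hs1 s' hs1'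
      rw [ze1, ze1, xi1, xi1, FX, FX, FJ, FJ] at g
      rw [ze2, ze2, xi2, xi2, FX', FX', FJ', FJ']
      obtain ⟨v1, v2⟩ := hvq s hs1
      obtain ⟨v1', v2'⟩ := hvq s' hs1'
      obtain ⟨L1, L2⟩ := hn2 W (v s T) (v s' T) (q s T) (q s' T) (pt (p₀ s T) (p₁ s T) T)
        (pt (p₀ s' T) (p₁ s' T) T) B1 v1 v1' v2 v2' rfl
      obtain ⟨L3, L4⟩ := hm2 W (v s T) (v s' T) (q s T) (q s' T) (pt (p₀ s T) (p₁ s T) T)
        (pt (p₀ s' T) (p₁ s' T) T) B2 v1 v1' v2 v2' rfl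
      have q0 : (pt (p₀ s T) (p₁ s T) T).1 0 - (pt (p₀ s' T) (p₁ s' T) T).1 0 =
        p₀ s T - p₀ s' T := rfl
      have q1 : (pt (p₀ s T) (p₁ s T) T).1 1 - (pt (p₀ s' T) (p₁ s' T) T).1 1 =
        p₁ s T - p₁ s' T := rfl
      rw [q0, q1] at L1 L2 L3 L4
      set S : ℝ := |v s T - v s' T| + |q s T - q s' T| + |p₀ s T - p₀ s' T| +
        |p₁ s T - p₁ s' T| with hS
      have hS0 : 0 ≤ S := by positivity
      have hCW : C / W ≤ 1 / 4 := by
        have : C / W ≤ η := by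
          rw [hη]
          exact div_le_div_of_nonneg_right (by linarith) hW0.le
        linarith
      have L1' : |(J1 s - J1 s') - (v s T - v s' T)| ≤ C / W * S := by
        have e1 : (J1 s - J1 s') - (v s T - v s' T) = (J1 s - v s T) - (J1 s' - v s' T) := by ring
        rw [e1]; exact L1
      have L2' : |(w1 s - w1 s') - (q s T - q s' T)| ≤ C / W * S := by
        have e1 : (w1 s - w1 s') - (q s T - q s' T) = (w1 s - q s T) - (w1 s' - q s' T) := by ring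
        rw [e1]; exact L2
      have L3' : |(J2 s - J2 s') - (v s T - v s' T)| ≤ C' / W * S := by
        have e1 : (J2 s - J2 s') - (v s T - v s' T) = (J2 s - v s T) - (J2 s' - v s' T) := by ring
        rw [e1]; exact L3
      have L4' : |(w2 s - w2 s') - (q s T - q s' T)| ≤ C' / W * S := by
        have e1 : (w2 s - w2 s') - (q s T - q s' T) = (w2 s - q s T) - (w2 s' - q s' T) := by ring
        rw [e1]; exact L4
      have hSb : S ≤ C₂ * (1 + K) * |w1 s + e.l * Y1 s - (w1 s' + e.l * Y1 s')| := by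
        refine SWIL.s_bd (l := e.l) (b := b) (K := K) (κ := C / W)
          (dze := w1 s - e.l * Y1 s - (w1 s' - e.l * Y1 s')) (dX := X1 s - X1 s')
          (dJ := J1 s - J1 s') (dw := w1 s - w1 s') (dY := Y1 s - Y1 s') hl hCW
          L1' L2' ?_ ?_ (by ring) (by ring) g
        · simp only [hY1]; ring
        · simp only [hX1, hY1]; ring
      have k3 : C / W + C' / W = η := by rw [hη, hD, add_div]
      have hηS : η * S ≤ θ * |w1 s + e.l * Y1 s - (w1 s' + e.l * Y1 s')| := by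
        calc η * S ≤ η * (C₂ * (1 + K) * |w1 s + e.l * Y1 s - (w1 s' + e.l * Y1 s')|) :=
              mul_le_mul_of_nonneg_left hSb hη0
          _ = _ := by rw [hθ]; ring
      have dw : |(w2 s - w2 s') - (w1 s - w1 s')| ≤ η * S := by
        have e1 : (w2 s - w2 s') - (w1 s - w1 s') = ((w2 s - w2 s') - (q s T - q s' T)) -
          ((w1 s - w1 s') - (q s T - q s' T)) := by ring
        rw [e1, ← k3, add_mul]
        refine (abs_sub _ _).trans ?_
        linarith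
      have dJ : |(J2 s - J2 s') - (J1 s - J1 s')| ≤ η * S := by
        have e1 : (J2 s - J2 s') - (J1 s - J1 s') = ((J2 s - J2 s') - (v s T - v s' T)) -
          ((J1 s - J1 s') - (v s T - v s' T)) := by ring
        rw [e1, ← k3, add_mul]
        refine (abs_sub _ _).trans ?_
        linarith
      refine (SWIL.cone (l := e.l) (K := K) (θ := θ)
        (dxi := w1 s + e.l * Y1 s - (w1 s' + e.l * Y1 s'))
        (dxi' := w2 s + e.l * Y1 s - (w2 s' + e.l * Y1 s'))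
        (dze := w1 s - e.l * Y1 s - (w1 s' - e.l * Y1 s')) (dJ := J1 s - J1 s') hK1 B7
        ?_ ?_ ?_ g).trans ?_
      · have e1 : w2 s + e.l * Y1 s - (w2 s' + e.l * Y1 s') -
          (w1 s + e.l * Y1 s - (w1 s' + e.l * Y1 s')) = (w2 s - w2 s') - (w1 s - w1 s') := by ring
        rw [e1]
        exact dw.trans hηS
      · have e1 : w2 s - e.l * Y1 s - (w2 s' - e.l * Y1 s') -
          (w1 s - e.l * Y1 s - (w1 s' - e.l * Y1 s')) = (w2 s - w2 s') - (w1 s - w1 s') := by ring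
        rw [e1]
        exact dw.trans hηS
      · exact dJ.trans hηS
      · exact mul_le_mul_of_nonneg_right hK3 (abs_nonneg _)
  · exact ⟨s₀, hs₀, rfl⟩
  · intro s hs
    exact hmin hs
  · have g1 := hjm s₀ (hsub hs₀)
    rw [FJ] at g1
    have g2 := abs_le.1 (near s₀ (hsub hs₀)).1
    linarith [g2.1]
  · obtain ⟨s₁, hs₁, hs₁J⟩ := hja
    rw [FJ] at hs₁J
    have g := hcone s₀ (hsub hs₀) s₁ hs₁
    rw [ze1, ze1, xi1, xi1, FX, FX, FJ, FJ] at g
    have b1 := hbx s₀ (hsub hs₀)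
    have b2 := hbx s₁ hs₁
    rw [xi1, hrr] at b1 b2
    have g3 : |w1 s₀ + e.l * Y1 s₀ - (w1 s₁ + e.l * Y1 s₁)| ≤ 2 * EK.NumL.sq i := by
      refine (abs_sub _ _).trans ?_
      linarith
    have g4 : K * |w1 s₀ + e.l * Y1 s₀ - (w1 s₁ + e.l * Y1 s₁)| ≤ 1 :=
      (mul_le_mul_of_nonneg_left g3 (by linarith)).trans B6
    have g5 : |J1 s₀ - J1 s₁| ≤ 1 := by
      have z0 : 0 ≤ |w1 s₀ - e.l * Y1 s₀ - (w1 s₁ - e.l * Y1 s₁)| := abs_nonneg _
      have z1 : 0 ≤ e.l / 4 * |X1 s₀ - X1 s₁| := by positivity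
      linarith
    have g6 := abs_le.1 g5
    have g7 := abs_le.1 (near s₀ (hsub hs₀)).1
    have g8 : (2 : ℝ) ^ (i + 1 + 1) = 4 * 2 ^ i := by rw [pow_succ, pow_succ]; ring
    have g9 : (2 : ℝ) ^ (i + 1) = 2 * 2 ^ i := by rw [pow_succ]; ring
    rw [g8]
    rw [g9] at hhi
    linarith [g6.2, g7.2]
  · intro s hs
    exact hvel s (hsub hs)

end Pool.Agent.Helper69.EL
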